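import Pool.Agent.P.MP_f475a8_pr.TriFinal

set_option autoImplicit false
open MeasureTheory ProbabilityTheory

namespace Pool.Agent.Results.MP_f475a8_pr.DisjointWords

/-- In dimension d at least three, almost surely some vertex v reads every k-tuple of words along
k self-avoiding paths that start at v and are otherwise disjoint (the state of v is not read) if
and only if k is at most d. -/
theorem result :
    ∀ (d : ℕ), 3 ≤ d → ∀ (Ω : Type) [MeasurableSpace Ω] (μ : Measure Ω) [IsProbabilityMeasure μ]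
      (X : (Fin d → ℤ) → Ω → Bool),
      (∀ v, Measurable (X v)) → iIndepFun X μ →
      (∀ v, μ {ω | X v ω = true} = 1 / 2) → ∀ k : ℕ,
      (∀ᵐ ω ∂μ, ∃ v : Fin d → ℤ, ∀ ξ : Fin k → ℕ → Bool, ∃ γ : Fin k → ℕ → Fin d → ℤ,
        (∀ i, Function.Injective (γ i) ∧ γ i 0 = v ∧
          (∀ n, ∑ j, |γ i (n + 1) j - γ i n j| = 1) ∧ ∀ n, X (γ i (n + 1)) ω = ξ i n) ∧
        ∀ i j m n, i ≠ j → γ i (m + 1) ≠ γ j (n + 1)) ↔ k ≤ d := by
  intro d hd Ω _ μ _ X h1 h2 h3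
  exact Pool.Agent.P.MP_f475a8_pr.Tri.words_iff hd X ⟨h1, h2, h3⟩

/-- The case of one word in dimension three. -/
theorem one_word (Ω : Type) [MeasurableSpace Ω] (μ : Measure Ω) [IsProbabilityMeasure μ]
    (X : (Fin 3 → ℤ) → Ω → Bool) (h1 : ∀ v, Measurable (X v)) (h2 : iIndepFun X μ)
    (h3 : ∀ v, μ {ω | X v ω = true} = 1 / 2) :
    ∀ᵐ ω ∂μ, ∃ v : Fin 3 → ℤ, ∀ ξ : ℕ → Bool,
      ∃ γ : ℕ → Fin 3 → ℤ, Function.Injective γ ∧ γ 0 = v ∧
        (∀ n, ∑ i, |γ (n + 1) i - γ n i| = 1) ∧ ∀ n, X (γ (n + 1)) ω = ξ n :=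
  ((result 3 le_rfl Ω μ X h1 h2 h3 1).2 (by norm_num)).mono fun _ ⟨v, hv⟩ =>
    ⟨v, fun ξ => (hv fun _ => ξ).elim fun γ h => ⟨γ 0, h.1 0⟩⟩

end Pool.Agent.Results.MP_f475a8_pr.DisjointWords
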